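import Pool.Agent.NH62.SB.Assemble
import Pool.Agent.NH62.SB.PeakedSB
import Pool.Agent.NH62.SB.OneInside2
import Pool.Agent.NH62.SB.Complete
import Pool.Agent.NH62.SB.Zorn
import Pool.Agent.NH62.SB.Bishop
import Pool.Agent.NH62.SB.DIneq
import Pool.Agent.NH62.SB.QForm
import Pool.Agent.NH62.SB.Key
import Pool.Agent.NH62.SB.Refl
import Pool.Agent.NH62.SB.Sphere
import Pool.Agent.NH62.SB.Inside
import Pool.Agent.NH62.SB.Mantel
import Pool.Agent.NH62.SB.Graph
import Pool.Agent.NH62.SB.GoodImp
import Pool.Agent.NH62.SB.Test
import Pool.Agent.NH62.SB.Spike
import Pool.Agent.NH62.SB.OneSphere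
import Pool.Agent.NH62.SB.Bidual1
import Pool.Agent.NH62.SB.Mem1

/-!
Every fibre of the spectrum of the algebra of uniformly continuous holomorphic functions on the
unit ball of complex little l_p, one at most p less than infinity, contains a strong boundary
point.

Sketch. A Bishop type one quarter - three quarters argument and Zorn's lemma for intersections of
peak sets reduce the claim to the construction of a filter on the ball which converges weakly
(star) to z and is approximately peaked. For p larger than one the test functions are
exp (L_m (x - z)) times the normalised tail of the sum of the k-th powers of the coordinates. For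
p = 1 the linear part is aligned with z off a thin set E, finitely many functionals are pinned by
quadratic exponents, and the mass left over is used by the quadratic form of the shift graph
(triangle free, infinite chromatic number) on E, E running through an ultrafilter.
-/

set_option autoImplicit false

open Metric
open scoped ENNReal

namespace Pool.Agent.Results.MP_164614_an.StrongBoundaryFibres

open Pool.Agent.NH62.SB

/-- The Banach algebra of all bounded functions on the open unit ball of `X` which are uniformly
continuous and holomorphic, with the sup norm (see `Au`). -/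
def UAlg (X : Type) [NormedAddCommGroup X] [NormedSpace ℂ X] : Type := ↥(Au X)

noncomputable instance ringUAlg (X : Type) [NormedAddCommGroup X] [NormedSpace ℂ X] :
    NormedCommRing (UAlg X) :=
  (Au X).normedCommRing

noncomputable instance algUAlg (X : Type) [NormedAddCommGroup X] [NormedSpace ℂ X] :
    NormedAlgebra ℂ (UAlg X) :=
  (Au X).toNormedAlgebra

/-- The value of an element of the algebra at a point of the open unit ball. -/
noncomputable def UAlg.val {X : Type} [NormedAddCommGroup X] [NormedSpace ℂ X] (f : UAlg X)
    (x : ↥(ball (0 : X) 1)) : ℂ :=
  Subtype.val (p := fun g => g ∈ Au X) f x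

/-- The character `φ` of the algebra lies in the fibre over the point `z` of the bidual of `X`. -/
def InFibre {X : Type} [NormedAddCommGroup X] [NormedSpace ℂ X]
    (φ : WeakDual.characterSpace ℂ (UAlg X)) (z : StrongDual ℂ (StrongDual ℂ X)) : Prop :=
  ∀ (h : StrongDual ℂ X) (f : UAlg X), (∀ x : ↥(ball (0 : X) 1), f.val x = h x) → φ f = z h

/-- Every fibre of the spectrum of the algebra over a point of the closed unit ball of the bidual
of `X` contains a strong boundary point. -/
def EveryFibre (X : Type) [NormedAddCommGroup X] [NormedSpace ℂ X] : Prop :=
  ∀ z : StrongDual ℂ (StrongDual ℂ X), ‖z‖ ≤ 1 →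
    ∃ φ : WeakDual.characterSpace ℂ (UAlg X), InFibre φ z ∧ IsSB φ

/-- For every p in [1, infinity) every fibre of the spectrum of the algebra `A_u` of the open unit
ball of complex little l_p contains a strong boundary point. -/
theorem result (p : ℝ≥0∞) [Fact (1 ≤ p)] (hp : p ≠ ∞) : EveryFibre (lp (fun _ : ℕ => ℂ) p) := by
  intro z hz
  have hm := Mem1.mem1
  exact Assemble.main Complete.complete (PeakedSB.peaked Zorn.zorn Bishop.bishop)
    Refl.refl Refl.weak (Sphere.sphere DIneq.dineq Refl.weak)
    (Inside.inside DIneq.dineq QForm.qform Key.key)
    Bidual1.bidual1 (OneSphere.oneSphere hm)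
    (OneInside.oneInside Mantel.mantel Graph.graph (GoodImp.goodImp Mantel.rlip)
      (Test.test Mantel.mantel) Spike.spike hm) p hp z hz

end Pool.Agent.Results.MP_164614_an.StrongBoundaryFibres
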